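import Mathlib

set_option autoImplicit false

open Filter Topology

namespace Pool.Agent.Results.MP_7feb78_co.VertexQ1

/-- For every vertex `v` the graph `G - v` has diameter at most `d`. -/
def VertexRobust {V : Type} (d : ℕ) (G : SimpleGraph V) : Prop :=
  ∀ v : V, (G.induce ({v}ᶜ : Set V)).ediam ≤ (d : ℕ∞)

/-- The minimum size of a graph `G` of order `n` such that for every vertex `v` the graph
`G - v` has diameter at most `d`. -/
noncomputable def fhat (n d : ℕ) : ℕ :=
  sInf {m : ℕ | ∃ G : SimpleGraph (Fin n), VertexRobust d G ∧ G.edgeSet.ncard = m}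

section walks

variable {V : Type} {G : SimpleGraph V}

/-- There is a walk of length at most `k` from `x` to `y` that avoids `t`. -/
def Rch (G : SimpleGraph V) (t : V) (k : ℕ) (x y : V) : Prop :=
  ∃ p : G.Walk x y, t ∉ p.support ∧ p.length ≤ k

theorem Rch.refl {t x : V} (h : x ≠ t) : Rch G t 0 x x :=
  ⟨SimpleGraph.Walk.nil, by simpa using h.symm, by simp⟩

theorem Rch.edge {t x y : V} (h : G.Adj x y) (hx : x ≠ t) (hy : y ≠ t) : Rch G t 1 x y :=
  ⟨h.toWalk, by simp [hx.symm, hy.symm], by simp⟩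

theorem Rch.trans {t x y z : V} {k l : ℕ} (h1 : Rch G t k x y) (h2 : Rch G t l y z) :
    Rch G t (k + l) x z := by
  obtain ⟨p, hp, hk⟩ := h1
  obtain ⟨q, hq, hl⟩ := h2
  refine ⟨p.append q, ?_, ?_⟩
  · rw [SimpleGraph.Walk.mem_support_append_iff]
    tauto
  · rw [SimpleGraph.Walk.length_append]; omega

theorem Rch.symm {t x y : V} {k : ℕ} (h : Rch G t k x y) : Rch G t k y x := by
  obtain ⟨p, hp, hk⟩ := h
  exact ⟨p.reverse, by simpa using hp, by simpa using hk⟩

theorem Rch.mono {t x y : V} {k l : ℕ} (h : Rch G t k x y) (hkl : k ≤ l) : Rch G t l x y := by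
  obtain ⟨p, hp, hk⟩ := h
  exact ⟨p, hp, hk.trans hkl⟩

theorem Rch.path {t : V} (f : ℕ → V) (a k : ℕ)
    (hadj : ∀ j, a ≤ j → j < a + k → G.Adj (f j) (f (j + 1)))
    (hne : ∀ j, a ≤ j → j ≤ a + k → f j ≠ t) : Rch G t k (f a) (f (a + k)) := by
  induction k with
  | zero => exact Rch.refl (hne a le_rfl (by omega))
  | succ k ih =>
    have h1 := ih (fun j h1 h2 => hadj j h1 (by omega)) (fun j h1 h2 => hne j h1 (by omega))
    exact h1.trans (Rch.edge (hadj (a + k) (by omega) (by omega)) (hne _ (by omega) (by omega))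
      (hne (a + k + 1) (by omega) (by omega)))

theorem robust_of_rch {W : Type} {G' : SimpleGraph W} (φ : G ≃g G') {d : ℕ}
    (h : ∀ t x y : V, x ≠ t → y ≠ t → Rch G t d x y) : VertexRobust d G' := by
  intro v
  refine SimpleGraph.ediam_le_of_edist_le ?_
  rintro ⟨x, hx⟩ ⟨y, hy⟩
  obtain ⟨v, rfl⟩ := φ.surjective v
  obtain ⟨x, rfl⟩ := φ.surjective x
  obtain ⟨y, rfl⟩ := φ.surjective y
  obtain ⟨p, hp, hk⟩ := h v x y (fun h => hx (by rw [h]; rfl)) (fun h => hy (by rw [h]; rfl))
  have hq : ∀ z ∈ (p.map φ.toHom).support, z ∈ ({φ v}ᶜ : Set W) := by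
    intro z hz
    rw [SimpleGraph.Walk.support_map, List.mem_map] at hz
    obtain ⟨w, hw, rfl⟩ := hz
    intro hzv
    have : w = v := φ.injective (Set.mem_singleton_iff.mp hzv)
    exact hp (this ▸ hw)
  have hw := SimpleGraph.Walk.edist_le ((p.map φ.toHom).induce ({φ v}ᶜ : Set W) hq)
  refine le_trans hw ?_
  have hlen : ((p.map φ.toHom).induce ({φ v}ᶜ : Set W) hq).length = p.length := by
    have h1 := SimpleGraph.Walk.length_support ((p.map φ.toHom).induce ({φ v}ᶜ : Set W) hq)
    rw [SimpleGraph.Walk.support_induce, List.length_attachWith,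
      SimpleGraph.Walk.length_support, SimpleGraph.Walk.length_map] at h1
    omega
  rw [hlen]
  exact_mod_cast hk

end walks

section construction

variable (m s L r : ℕ) [NeZero s] [NeZero L]

/-- The vertices: two hubs, `m * s` cycles of length `L`, and `r` extra vertices. -/
abbrev Vx := Bool ⊕ ((Fin m × Fin s × Fin L) ⊕ Fin r)

variable {m s L r}

def hub (b : Bool) : Vx m s L r := Sum.inl b

def cv (c : Fin m) (i u : ℕ) : Vx m s L r := Sum.inr (Sum.inl (c, Fin.ofNat s i, Fin.ofNat L u))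

def ext (j : Fin r) : Vx m s L r := Sum.inr (Sum.inr j)

variable (m s L r)

/-- Index type of the edges. -/
abbrev Ex := (Fin m × Fin s × Fin L) ⊕ ((Fin m × Fin (s + 1)) ⊕ (Unit ⊕ (Fin r × Bool)))

variable {m s L r}

/-- The edges. -/
def eg : Ex m s L r → Sym2 (Vx m s L r)
  | Sum.inl (c, i, u) => s(cv c i.val u.val, cv c i.val (u.val + 1))
  | Sum.inr (Sum.inl (c, i)) =>
      s(if i.val = 0 then hub false else cv c (i.val - 1) 1,
        if i.val = s then hub true else cv c i.val 0)
  | Sum.inr (Sum.inr (Sum.inl _)) => s(hub false, hub true)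
  | Sum.inr (Sum.inr (Sum.inr (j, b))) => s(ext j, hub b)

variable (m s L r)

/-- The graph. -/
def Gr : SimpleGraph (Vx m s L r) := SimpleGraph.fromEdgeSet (Set.range eg)

variable {m s L r}

theorem adj_of {x y : Vx m s L r} (e : Ex m s L r) (h : eg e = s(x, y)) (hne : x ≠ y) :
    (Gr m s L r).Adj x y := by
  rw [Gr, SimpleGraph.fromEdgeSet_adj]
  exact ⟨⟨e, h⟩, hne⟩

theorem cv_ne_hub (c : Fin m) (i u : ℕ) (b : Bool) : (cv c i u : Vx m s L r) ≠ hub b := by
  simp [cv, hub]

theorem cv_inj {c c' : Fin m} {i u i' u' : ℕ} (h : (cv c i u : Vx m s L r) = cv c' i' u') :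
    c = c' ∧ i % s = i' % s ∧ u % L = u' % L := by
  simp only [cv, Sum.inr.injEq, Sum.inl.injEq, Prod.mk.injEq] at h
  refine ⟨h.1, ?_, ?_⟩
  · have := congrArg Fin.val h.2.1
    simpa using this
  · have := congrArg Fin.val h.2.2
    simpa using this

theorem cv_eq {c : Fin m} {i u i' u' : ℕ} (hi : i % s = i' % s) (hu : u % L = u' % L) :
    (cv c i u : Vx m s L r) = cv c i' u' := by
  simp only [cv, Sum.inr.injEq, Sum.inl.injEq, Prod.mk.injEq, true_and]
  refine ⟨?_, ?_⟩ <;> apply Fin.ext <;> simpa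

theorem adj_cyc (hL : 2 ≤ L) (c : Fin m) (i u : ℕ) :
    (Gr m s L r).Adj (cv c i u) (cv c i (u + 1)) := by
  refine adj_of (Sum.inl (c, Fin.ofNat s i, Fin.ofNat L u)) ?_ ?_
  · have h : eg (r := r) (Sum.inl (c, Fin.ofNat s i, Fin.ofNat L u)) =
        s(cv c (i % s) (u % L), cv c (i % s) (u % L + 1)) := rfl
    rw [h, cv_eq (i := i % s) (u := u % L) (i' := i) (u' := u) (by simp) (by simp),
      cv_eq (i := i % s) (u := u % L + 1) (i' := i) (u' := u + 1) (by simp) (by simp)]
  · intro h
    have := (cv_inj h).2.2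
    rw [Nat.add_mod] at this
    have h1 : u % L < L := Nat.mod_lt _ (by omega)
    have h2 : 1 % L = 1 := Nat.mod_eq_of_lt (by omega)
    rw [h2] at this
    by_cases h3 : u % L + 1 < L
    · rw [Nat.mod_eq_of_lt h3] at this; omega
    · have h4 : u % L + 1 = L := by omega
      rw [h4, Nat.mod_self] at this; omega

theorem adj_link (hL : 2 ≤ L) (c : Fin m) (i : ℕ) (hi : i + 1 < s) :
    (Gr m s L r).Adj (cv c i 1) (cv c (i + 1) 0) := by
  refine adj_of (Sum.inr (Sum.inl (c, ⟨i + 1, by omega⟩))) ?_ ?_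
  · simp only [eg]
    rw [if_neg (by omega), if_neg (by omega)]
    rfl
  · intro h
    have := (cv_inj h).2.2
    rw [Nat.zero_mod, Nat.mod_eq_of_lt (by omega : 1 < L)] at this
    omega

theorem adj_first (c : Fin m) : (Gr m s L r).Adj (hub false) (cv c 0 0) := by
  refine adj_of (Sum.inr (Sum.inl (c, ⟨0, by omega⟩))) ?_ (cv_ne_hub c 0 0 false).symm
  show s(if (0 : ℕ) = 0 then hub false else cv c (0 - 1) 1,
        if (0 : ℕ) = s then hub true else cv c 0 0) = _
  rw [if_pos rfl, if_neg (NeZero.ne s).symm]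

theorem adj_last (c : Fin m) : (Gr m s L r).Adj (cv c (s - 1) 1) (hub true) := by
  refine adj_of (Sum.inr (Sum.inl (c, ⟨s, by omega⟩))) ?_ (cv_ne_hub c _ 1 true)
  show s(if s = 0 then hub false else cv c (s - 1) 1,
        if s = s then hub true else cv c s 0) = _
  rw [if_neg (NeZero.ne s), if_pos rfl]

theorem adj_hub : (Gr m s L r).Adj (hub false) (hub true) :=
  adj_of (Sum.inr (Sum.inr (Sum.inl ()))) rfl (by simp [hub])

theorem adj_ext (j : Fin r) (b : Bool) : (Gr m s L r).Adj (ext j) (hub b) :=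
  adj_of (Sum.inr (Sum.inr (Sum.inr (j, b)))) rfl (by simp [hub, ext])

/-- Number of edges. -/
theorem ncard_edges : (Gr m s L r).edgeSet.ncard ≤ m * (s * L) + (m * (s + 1) + (1 + r * 2)) := by
  have h1 : (Gr m s L r).edgeSet ⊆ Set.range (eg : Ex m s L r → Sym2 (Vx m s L r)) := by
    rw [Gr, SimpleGraph.edgeSet_fromEdgeSet]
    exact Set.sdiff_subset
  calc (Gr m s L r).edgeSet.ncard
      ≤ (Set.range (eg : Ex m s L r → Sym2 (Vx m s L r))).ncard :=
        Set.ncard_le_ncard h1 (Set.toFinite _)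
    _ = ((Set.univ : Set (Ex m s L r)).image eg).ncard := by rw [Set.image_univ]
    _ ≤ (Set.univ : Set (Ex m s L r)).ncard := Set.ncard_image_le (Set.toFinite _)
    _ = m * (s * L) + (m * (s + 1) + (1 + r * 2)) := by
        rw [Set.ncard_univ, Nat.card_eq_fintype_card]
        simp [Fintype.card_sum, Fintype.card_prod]

omit [NeZero s] [NeZero L] in
theorem card_Vx : Fintype.card (Vx m s L r) = 2 + (m * (s * L) + r) := by
  simp [Fintype.card_sum, Fintype.card_prod]

section routes

variable {t : Vx m s L r}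

/-- Left route. -/
theorem left_route (hL : 2 ≤ L) (c : Fin m) (i : ℕ) (hi : i < s) (ht : hub false ≠ t)
    (h0 : ∀ j, j ≤ i → cv c j 0 ≠ t) (h1 : ∀ j, j < i → cv c j 1 ≠ t) :
    Rch (Gr m s L r) t (2 * i + 1) (cv c i 0) (hub false) := by
  induction i with
  | zero => exact (Rch.edge (adj_first c) ht (h0 0 le_rfl)).symm
  | succ i ih =>
    have h2 := ih (by omega) (fun j hj => h0 j (by omega)) (fun j hj => h1 j (by omega))
    have h3 := (Rch.edge (adj_link hL c i hi) (h1 i (by omega)) (h0 (i + 1) le_rfl)).symm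
    have h4 := (Rch.edge (adj_cyc hL c i 0) (h0 i (by omega)) (h1 i (by omega))).symm
    exact ((h3.trans h4).trans h2).mono (by omega)

/-- Right route. -/
theorem right_route (hL : 2 ≤ L) (c : Fin m) (k i : ℕ) (hi : i + k + 1 = s) (ht : hub true ≠ t)
    (h1 : ∀ j, i ≤ j → j < s → cv c j 1 ≠ t) (h0 : ∀ j, i < j → j < s → cv c j 0 ≠ t) :
    Rch (Gr m s L r) t (2 * k + 1) (cv c i 1) (hub true) := by
  induction k generalizing i with
  | zero =>
    have e : i = s - 1 := by omega
    subst e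
    exact Rch.edge (adj_last c) (h1 _ le_rfl (by omega)) ht
  | succ k ih =>
    have h2 := ih (i + 1) (by omega) (fun j hj => h1 j (by omega)) (fun j hj => h0 j (by omega))
    have h3 := Rch.edge (adj_link hL c i (by omega)) (h1 i (by omega) (by omega))
      (h0 (i + 1) (by omega) (by omega))
    have h4 := Rch.edge (adj_cyc hL c (i + 1) 0) (h0 (i + 1) (by omega) (by omega))
      (h1 (i + 1) (by omega) (by omega))
    exact ((h3.trans h4).trans h2).mono (by omega)

/-- Walking along a cycle from position `a` up to position `b`. -/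
theorem walk_up (hL : 2 ≤ L) (c : Fin m) (i a b : ℕ) (hab : a ≤ b)
    (h : ∀ j, a ≤ j → j ≤ b → cv c i j ≠ t) :
    Rch (Gr m s L r) t (b - a) (cv c i a) (cv c i b) := by
  obtain ⟨k, rfl⟩ := Nat.exists_eq_add_of_le hab
  have := Rch.path (G := Gr m s L r) (t := t) (fun j => cv c i j) a k
    (fun j _ _ => adj_cyc hL c i j) h
  simpa using this

theorem cv_L (c : Fin m) (i : ℕ) : (cv c i L : Vx m s L r) = cv c i 0 :=
  cv_eq rfl (by simp)

theorem cv_L1 (c : Fin m) (i : ℕ) : (cv c i (L + 1) : Vx m s L r) = cv c i 1 :=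
  cv_eq rfl (by simp)

/-- From an intact cycle to its left attachment. -/
theorem to_left (hL : 2 ≤ L) (c : Fin m) (i u : ℕ) (hu : u < L)
    (h : ∀ j, cv c i j ≠ t) : Rch (Gr m s L r) t (L / 2) (cv c i u) (cv c i 0) := by
  by_cases h1 : u ≤ L / 2
  · exact ((walk_up hL c i 0 u (by omega) (fun j _ _ => h j)).symm).mono (by omega)
  · have := walk_up (t := t) hL c i u L (by omega) (fun j _ _ => h j)
    rw [cv_L] at this
    exact this.mono (by omega)

/-- From an intact cycle to its right attachment. -/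
theorem to_right (hL : 2 ≤ L) (c : Fin m) (i u : ℕ) (hu : u < L)
    (h : ∀ j, cv c i j ≠ t) : Rch (Gr m s L r) t (L / 2) (cv c i u) (cv c i 1) := by
  by_cases h0 : u = 0
  · subst h0
    exact (walk_up hL c i 0 1 (by omega) (fun j _ _ => h j)).mono (by omega)
  by_cases h1 : u - 1 ≤ L / 2
  · exact ((walk_up hL c i 1 u (by omega) (fun j _ _ => h j)).symm).mono (by omega)
  · have := walk_up (t := t) hL c i u (L + 1) (by omega) (fun j _ _ => h j)
    rw [cv_L1] at this
    exact this.mono (by omega)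

/-- From an intact cycle to the left hub. -/
theorem go_left (hL : 2 ≤ L) (c : Fin m) (i u : ℕ) (hi : i < s) (hu : u < L)
    (ht : hub false ≠ t) (h : ∀ j, j ≤ i → ∀ w, cv c j w ≠ t) :
    Rch (Gr m s L r) t (L / 2 + 2 * s - 1) (cv c i u) (hub false) :=
  ((to_left hL c i u hu (h i le_rfl)).trans (left_route hL c i hi ht (fun j hj => h j hj 0)
    (fun j hj => h j (by omega) 1))).mono (by omega)

/-- From an intact cycle to the right hub. -/
theorem go_right (hL : 2 ≤ L) (c : Fin m) (i u : ℕ) (hi : i < s) (hu : u < L)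
    (ht : hub true ≠ t) (h : ∀ j, i ≤ j → j < s → ∀ w, cv c j w ≠ t) :
    Rch (Gr m s L r) t (L / 2 + 2 * s - 1) (cv c i u) (hub true) :=
  ((to_right hL c i u hu (h i le_rfl hi)).trans (right_route hL c (s - 1 - i) i (by omega) ht
    (fun j hj hj' => h j hj hj' 1)
    (fun j hj hj' => h j (by omega) hj' 0))).mono (by omega)

end routes

theorem cases_Vx (x : Vx m s L r) :
    (∃ b, x = hub b) ∨ (∃ c i u, i < s ∧ u < L ∧ x = cv c i u) ∨ (∃ j, x = ext j) := by
  rcases x with b | ⟨⟨c, i, u⟩ | j⟩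
  · exact Or.inl ⟨b, rfl⟩
  · refine Or.inr (Or.inl ⟨c, i.val, u.val, i.isLt, u.isLt, ?_⟩)
    simp [cv]
  · exact Or.inr (Or.inr ⟨j, rfl⟩)

theorem ne_c {c c' : Fin m} (h : c ≠ c') (i u i' u' : ℕ) :
    (cv c i u : Vx m s L r) ≠ cv c' i' u' := fun e => h (cv_inj e).1

theorem ne_i {i i' : ℕ} (hi : i < s) (hi' : i' < s) (h : i ≠ i') (c c' : Fin m) (u u' : ℕ) :
    (cv c i u : Vx m s L r) ≠ cv c' i' u' := fun e => h (by
  have := (cv_inj e).2.1
  rwa [Nat.mod_eq_of_lt hi, Nat.mod_eq_of_lt hi'] at this)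

theorem ne_u {u u' : ℕ} (hu : u < L) (hu' : u' < L) (h : u ≠ u') (c c' : Fin m) (i i' : ℕ) :
    (cv c i u : Vx m s L r) ≠ cv c' i' u' := fun e => h (by
  have := (cv_inj e).2.2
  rwa [Nat.mod_eq_of_lt hu, Nat.mod_eq_of_lt hu'] at this)

/-- When a hub is deleted, everything is close to the other hub. -/
theorem reach_of_hub (hL : 2 ≤ L) (b : Bool) (x : Vx m s L r) (hx : x ≠ hub b) :
    Rch (Gr m s L r) (hub b) (L / 2 + 2 * s - 1) x (hub (!b)) := by
  have hs : 0 < s := Nat.pos_of_ne_zero (NeZero.ne s)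
  rcases cases_Vx x with ⟨b', rfl⟩ | ⟨c, i, u, hi, hu, rfl⟩ | ⟨j, rfl⟩
  · have hb : b' = !b := by
      cases b <;> cases b' <;> simp_all
    subst hb
    exact (Rch.refl hx).mono (by omega)
  · cases b with
    | false => exact go_right hL c i u hi hu (by simp [hub]) (fun j _ _ w => cv_ne_hub c j w _)
    | true => exact go_left hL c i u hi hu (by simp [hub]) (fun j _ w => cv_ne_hub c j w _)
  · exact (Rch.edge (adj_ext j _) hx (by cases b <;> simp [hub])).mono (by omega)

/-- When an extra vertex is deleted, everything is close to the left hub. -/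
theorem reach_of_ext (hL : 2 ≤ L) (e : Fin r) (x : Vx m s L r) (hx : x ≠ ext e) :
    Rch (Gr m s L r) (ext e) (L / 2 + 2 * s - 1) x (hub false) := by
  have hs : 0 < s := Nat.pos_of_ne_zero (NeZero.ne s)
  rcases cases_Vx x with ⟨b', rfl⟩ | ⟨c, i, u, hi, hu, rfl⟩ | ⟨j, rfl⟩
  · cases b' with
    | false => exact (Rch.refl hx).mono (by omega)
    | true => exact (Rch.edge adj_hub (by simp [hub, ext]) hx).symm.mono (by omega)
  · exact go_left hL c i u hi hu (by simp [hub, ext]) (fun j _ w => by simp [cv, ext])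
  · exact (Rch.edge (adj_ext j _) hx (by simp [hub, ext])).mono (by omega)

/-- When a cycle vertex is deleted, everything off its cycle is close to some hub. -/
theorem reach_off (hL : 2 ≤ L) (c : Fin m) (j w : ℕ) (hj : j < s)
    (x : Vx m s L r) (hx : ∀ u, x ≠ cv c j u) :
    ∃ b, Rch (Gr m s L r) (cv c j w) (L / 2 + 2 * s - 1) x (hub b) := by
  rcases cases_Vx x with ⟨b', rfl⟩ | ⟨c', i, u, hi, hu, rfl⟩ | ⟨e, rfl⟩
  · exact ⟨b', (Rch.refl (hx w)).mono (by omega)⟩
  · by_cases hc : c' = c
    · subst hc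
      rcases lt_trichotomy i j with h | h | h
      · exact ⟨false, go_left hL c' i u hi hu (cv_ne_hub c' j w _).symm
          (fun j' hj' w' => ne_i (by omega) hj (by omega) _ _ _ _)⟩
      · exact absurd rfl (h ▸ hx u)
      · exact ⟨true, go_right hL c' i u hi hu (cv_ne_hub c' j w _).symm
          (fun j' hj' hj'' w' => ne_i hj'' hj (by omega) _ _ _ _)⟩
    · exact ⟨false, go_left hL c' i u hi hu (cv_ne_hub c j w _).symm
          (fun j' _ w' => ne_c hc _ _ _ _)⟩
  · exact ⟨false, (Rch.edge (adj_ext e _) (hx w) (cv_ne_hub c j w _).symm).mono (by omega)⟩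

/-- When a cycle vertex is deleted, the rest of its cycle is still close to some hub. -/
theorem reach_on (hL : 2 ≤ L) (c : Fin m) (j w u : ℕ) (hj : j < s) (hw : w < L) (hu : u < L)
    (huw : u ≠ w) :
    ∃ b, Rch (Gr m s L r) (cv c j w) (L - 2 + (2 * s - 1)) (cv c j u) (hub b) := by
  rcases Nat.lt_trichotomy w 1 with h | h | h
  · have h0 : w = 0 := by omega
    subst h0
    have h1 := (walk_up (t := cv c j 0) (r := r) (s := s) hL c j 1 u (by omega)
      (fun k hk hk' => ne_u (by omega) (by omega) (by omega) _ _ _ _)).symm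
    have h2 := right_route (t := cv c j 0) (r := r) (s := s) hL c (s - 1 - j) j (by omega)
      (cv_ne_hub c j 0 _).symm (fun k _ _ => ne_u (by omega) (by omega) (by omega) _ _ _ _)
      (fun k hk hk' => ne_i hk' hj (by omega) _ _ _ _)
    exact ⟨true, (h1.trans h2).mono (by omega)⟩
  · subst h
    have h2 := left_route (t := cv c j 1) (r := r) (s := s) hL c j hj
      (cv_ne_hub c j 1 _).symm (fun k _ => ne_u (by omega) (by omega) (by omega) _ _ _ _)
      (fun k hk => ne_i (by omega) hj (by omega) _ _ _ _)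
    by_cases hu0 : u = 0
    · subst hu0
      exact ⟨false, h2.mono (by omega)⟩
    · have h1 := walk_up (t := cv c j 1) (r := r) (s := s) hL c j u L (by omega)
        (fun k hk hk' => by
          by_cases hkL : k = L
          · subst hkL; rw [cv_L]; exact ne_u (by omega) (by omega) (by omega) _ _ _ _
          · exact ne_u (by omega) (by omega) (by omega) _ _ _ _)
      rw [cv_L] at h1
      exact ⟨false, (h1.trans h2).mono (by omega)⟩
  · have h2 := left_route (t := cv c j w) (r := r) (s := s) hL c j hj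
      (cv_ne_hub c j w _).symm (fun k _ => ne_u (by omega) (by omega) (by omega) _ _ _ _)
      (fun k hk => ne_i (by omega) hj (by omega) _ _ _ _)
    by_cases huw' : u < w
    · have h1 := (walk_up (t := cv c j w) (r := r) (s := s) hL c j 0 u (by omega)
        (fun k hk hk' => ne_u (by omega) (by omega) (by omega) _ _ _ _)).symm
      exact ⟨false, (h1.trans h2).mono (by omega)⟩
    · have h1 := walk_up (t := cv c j w) (r := r) (s := s) hL c j u L (by omega)
        (fun k hk hk' => by
          by_cases hkL : k = L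
          · subst hkL; rw [cv_L]; exact ne_u (by omega) (by omega) (by omega) _ _ _ _
          · exact ne_u (by omega) (by omega) (by omega) _ _ _ _)
      rw [cv_L] at h1
      exact ⟨false, (h1.trans h2).mono (by omega)⟩

/-- Two vertices of the same cycle, with a vertex of this cycle deleted. -/
theorem reach_same_aux (hL : 2 ≤ L) (c : Fin m) (j w u v : ℕ) (hw : w < L)
    (hu : u < v) (hv : v < L) (huw : u ≠ w) (hvw : v ≠ w) :
    Rch (Gr m s L r) (cv c j w) (L - 2) (cv c j u) (cv c j v) := by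
  by_cases h : u < w ∧ w < v
  · have h1 := walk_up (t := cv c j w) (r := r) (s := s) hL c j v (L + u) (by omega)
        (fun k hk hk' => by
          by_cases hkL : k < L
          · exact ne_u (by omega) (by omega) (by omega) _ _ _ _
          · have e : (cv c j k : Vx m s L r) = cv c j (k - L) := by
              apply cv_eq rfl
              conv_lhs => rw [show k = L + (k - L) by omega]
              simp
            rw [e]
            exact ne_u (by omega) (by omega) (by omega) _ _ _ _)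
    have e : (cv c j (L + u) : Vx m s L r) = cv c j u := cv_eq rfl (by simp)
    rw [e] at h1
    exact h1.symm.mono (by omega)
  · exact (walk_up (t := cv c j w) (r := r) (s := s) hL c j u v (by omega)
        (fun k hk hk' => ne_u (by omega) (by omega) (by omega) _ _ _ _)).mono (by omega)

theorem reach_same (hL : 2 ≤ L) (c : Fin m) (j w u v : ℕ) (hw : w < L)
    (hu : u < L) (hv : v < L) (huw : u ≠ w) (hvw : v ≠ w) :
    Rch (Gr m s L r) (cv c j w) (L - 2) (cv c j u) (cv c j v) := by
  rcases lt_trichotomy u v with h | h | h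
  · exact reach_same_aux hL c j w u v hw h hv huw hvw
  · subst h
    exact (Rch.refl (ne_u hu hw huw _ _ _ _)).mono (by omega)
  · exact (reach_same_aux hL c j w v u hw h hu hvw huw).symm

/-- Joining two vertices that are both close to hubs. -/
theorem join_hubs {t x y : Vx m s L r} {k l : ℕ} (ht : ∀ b, hub b ≠ t)
    (hx : ∃ b, Rch (Gr m s L r) t k x (hub b)) (hy : ∃ b, Rch (Gr m s L r) t l y (hub b)) :
    Rch (Gr m s L r) t (k + 1 + l) x y := by
  obtain ⟨b, hb⟩ := hx
  obtain ⟨b', hb'⟩ := hy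
  have h : Rch (Gr m s L r) t 1 (hub b) (hub b') := by
    cases b <;> cases b'
    · exact (Rch.refl (ht _)).mono (by omega)
    · exact Rch.edge adj_hub (ht _) (ht _)
    · exact (Rch.edge adj_hub (ht _) (ht _)).symm
    · exact (Rch.refl (ht _)).mono (by omega)
  exact (hb.trans h).trans hb'.symm

/-- The graph stays of small diameter after the deletion of any vertex. -/
theorem reach_all (hL : 4 ≤ L) (t x y : Vx m s L r) (hx : x ≠ t) (hy : y ≠ t) :
    Rch (Gr m s L r) t (L + L / 2 + 4 * s - 3) x y := by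
  have hs : 0 < s := Nat.pos_of_ne_zero (NeZero.ne s)
  rcases cases_Vx t with ⟨b, rfl⟩ | ⟨c, j, w, hj, hw, rfl⟩ | ⟨e, rfl⟩
  · exact ((reach_of_hub (by omega) b x hx).trans
      (reach_of_hub (by omega) b y hy).symm).mono (by omega)
  · have ht : ∀ b, (hub b : Vx m s L r) ≠ cv c j w := fun b => (cv_ne_hub c j w b).symm
    by_cases hx' : ∃ u, x = cv c j u
    · obtain ⟨u, rfl⟩ := hx'
      have eu : (cv c j u : Vx m s L r) = cv c j (u % L) := cv_eq rfl (by simp)
      rw [eu] at hx ⊢
      have hu : u % L < L := Nat.mod_lt _ (by omega)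
      have huw : u % L ≠ w := fun h => hx (by rw [h])
      by_cases hy' : ∃ v, y = cv c j v
      · obtain ⟨v, rfl⟩ := hy'
        have ev : (cv c j v : Vx m s L r) = cv c j (v % L) := cv_eq rfl (by simp)
        rw [ev] at hy ⊢
        have hv : v % L < L := Nat.mod_lt _ (by omega)
        have hvw : v % L ≠ w := fun h => hy (by rw [h])
        exact (reach_same (by omega) c j w _ _ hw hu hv huw hvw).mono (by omega)
      · push Not at hy'
        exact (join_hubs ht (reach_on (by omega) c j w _ hj hw hu huw)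
          (reach_off (by omega) c j w hj y hy')).mono (by omega)
    · push Not at hx'
      by_cases hy' : ∃ v, y = cv c j v
      · obtain ⟨v, rfl⟩ := hy'
        have ev : (cv c j v : Vx m s L r) = cv c j (v % L) := cv_eq rfl (by simp)
        rw [ev] at hy ⊢
        have hv : v % L < L := Nat.mod_lt _ (by omega)
        have hvw : v % L ≠ w := fun h => hy (by rw [h])
        exact (join_hubs ht (reach_off (by omega) c j w hj x hx')
          (reach_on (by omega) c j w _ hj hw hv hvw)).mono (by omega)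
      · push Not at hy'
        exact (join_hubs ht (reach_off (by omega) c j w hj x hx')
          (reach_off (by omega) c j w hj y hy')).mono (by omega)
  · exact ((reach_of_ext (by omega) e x hx).trans
      (reach_of_ext (by omega) e y hy).symm).mono (by omega)

end construction

/-- The upper bound coming from the construction. -/
theorem fhat_le (s L d n : ℕ) (hs : 1 ≤ s) (hL : 4 ≤ L) (hd : L + L / 2 + 4 * s - 3 ≤ d)
    (hn : 2 ≤ n) :
    fhat n d ≤ n + ((n - 2) / (s * L)) * (s + 1) + s * L := by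
  have : NeZero s := ⟨by omega⟩
  have : NeZero L := ⟨by omega⟩
  have hsL : 0 < s * L := Nat.mul_pos (by omega) (by omega)
  set m := (n - 2) / (s * L) with hm
  set r := (n - 2) % (s * L) with hr
  have hdiv : s * L * m + r = n - 2 := Nat.div_add_mod (n - 2) (s * L)
  have hrlt : r < s * L := Nat.mod_lt _ hsL
  have hcard : Fintype.card (Vx m s L r) = n := by
    rw [card_Vx]
    have : m * (s * L) = s * L * m := Nat.mul_comm _ _
    omega
  have h1 : VertexRobust d ((Gr m s L r).overFin hcard) :=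
    robust_of_rch ((Gr m s L r).overFinIso hcard)
      (fun t x y hx hy => (reach_all hL t x y hx hy).mono hd)
  have h2 : fhat n d ≤ ((Gr m s L r).overFin hcard).edgeSet.ncard :=
    Nat.sInf_le ⟨_, h1, rfl⟩
  have h3 : ((Gr m s L r).overFin hcard).edgeSet.ncard = (Gr m s L r).edgeSet.ncard :=
    (Nat.card_congr ((Gr m s L r).overFinIso hcard).mapEdgeSet).symm
  have h4 := ncard_edges (m := m) (s := s) (L := L) (r := r)
  have h5 : m * (s * L) = s * L * m := Nat.mul_comm _ _
  have h6 : m * (s + 1) = m * (s + 1) := rfl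
  omega

/-- Asymptotic form of the upper bound. -/
theorem eventually_le (s L d : ℕ) (hs : 1 ≤ s) (hL : 4 ≤ L) (hd : L + L / 2 + 4 * s - 3 ≤ d)
    (c : ℝ) (hc : 1 + ((s : ℝ) + 1) / (s * L) < c) :
    ∀ᶠ n : ℕ in atTop, (fhat n d : ℝ) / n ≤ c := by
  have hpos : (0 : ℝ) < c - 1 - ((s : ℝ) + 1) / (s * L) := by linarith
  obtain ⟨N, hN⟩ := exists_nat_gt (((s : ℝ) * L) / (c - 1 - ((s : ℝ) + 1) / (s * L)))
  filter_upwards [eventually_ge_atTop (max N 2)] with n hn
  have hn2 : 2 ≤ n := le_trans (le_max_right _ _) hn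
  have hnN : N ≤ n := le_trans (le_max_left _ _) hn
  have hn0 : (0 : ℝ) < n := by positivity
  have hsL : (0 : ℝ) < (s : ℝ) * L := by
    have h1 : (0 : ℝ) < s := by exact_mod_cast hs
    have h2 : (0 : ℝ) < L := by exact_mod_cast (by omega : 0 < L)
    positivity
  have h1 := fhat_le s L d n hs hL hd hn2
  have h2 : (((n - 2) / (s * L) : ℕ) : ℝ) ≤ (n : ℝ) / (s * L) := by
    calc (((n - 2) / (s * L) : ℕ) : ℝ) ≤ ((n - 2 : ℕ) : ℝ) / ((s * L : ℕ) : ℝ) := Nat.cast_div_le
      _ ≤ (n : ℝ) / (s * L) := by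
        push_cast
        apply div_le_div_of_nonneg_right _ hsL.le
        exact_mod_cast Nat.sub_le n 2
  have h3 : (fhat n d : ℝ) ≤ n + ((n : ℝ) / (s * L)) * (s + 1) + s * L := by
    have h4 : (fhat n d : ℝ) ≤ ((n + ((n - 2) / (s * L)) * (s + 1) + s * L : ℕ) : ℝ) := by
      exact_mod_cast h1
    refine h4.trans ?_
    push_cast
    have h5 : (0 : ℝ) ≤ (s : ℝ) + 1 := by positivity
    have h6 := mul_le_mul_of_nonneg_right h2 h5
    linarith
  have h7 : (s : ℝ) * L < (c - 1 - ((s : ℝ) + 1) / (s * L)) * n := by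
    have h8 : ((s : ℝ) * L) / (c - 1 - ((s : ℝ) + 1) / (s * L)) < n :=
      lt_of_lt_of_le hN (by exact_mod_cast hnN)
    rw [div_lt_iff₀ hpos] at h8
    linarith
  rw [div_le_iff₀ hn0]
  have h9 : (n : ℝ) / (s * L) * (s + 1) = ((s : ℝ) + 1) / (s * L) * n := by
    field_simp
  rw [h9] at h3
  nlinarith

/-- The value `a_d = ⌊d/2⌋`. -/
def a (d : ℕ) : ℕ := d / 2

theorem exists_bound (d : ℕ) (hd : 177 ≤ d) :
    ∃ c : ℝ, c < ((a d : ℝ) + 1) / a d ∧ ∀ᶠ n : ℕ in atTop, (fhat n d : ℝ) / n ≤ c := by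
  set L := (2 * (d - 21)) / 3 with hL
  have h1 : 7 * (d / 2) < 6 * L := by omega
  have hL4 : 4 ≤ L := by omega
  have ha : (0 : ℝ) < (a d : ℝ) := by
    have : 0 < a d := by unfold a; omega
    exact_mod_cast this
  have hLr : (0 : ℝ) < (L : ℝ) := by exact_mod_cast (by omega : 0 < L)
  have h2 : 1 + (((6 : ℕ) : ℝ) + 1) / ((6 : ℕ) * L) < ((a d : ℝ) + 1) / a d := by
    have h3 : ((a d : ℝ) + 1) / a d = 1 + 1 / a d := by field_simp
    rw [h3]
    have h4 : (((6 : ℕ) : ℝ) + 1) / ((6 : ℕ) * L) < 1 / a d := by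
      rw [div_lt_div_iff₀ (by push_cast; positivity) ha]
      have h5 : (7 : ℝ) * (a d : ℝ) < 6 * L := by exact_mod_cast h1
      push_cast
      linarith
    linarith
  obtain ⟨c, hc1, hc2⟩ := exists_between h2
  exact ⟨c, hc2, eventually_le 6 L d (by omega) hL4 (by omega) c hc1⟩

theorem limsup_lt (d : ℕ) (hd : 177 ≤ d) :
    limsup (fun n : ℕ => (fhat n d : ℝ) / n) atTop < ((a d : ℝ) + 1) / a d := by
  obtain ⟨c, hc, h⟩ := exists_bound d hd
  refine lt_of_le_of_lt ?_ hc
  refine limsup_le_of_le ?_ h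
  exact ⟨0, by
    intro b hb
    obtain ⟨n, hn⟩ := (Filter.eventually_map.mp hb).exists
    exact le_trans (by positivity) hn⟩

/-- **Disproof of the conjecture on vertex deletions.** It is not true that for every `d ≥ 5`
the minimum size `fhat n d` satisfies `fhat n d / n → (a_d + 1) / a_d` where `a_d = ⌊d/2⌋`;
in fact for every `d ≥ 177` even the upper limit is strictly smaller than `(a_d + 1) / a_d`. -/
theorem result :
    (¬ ∀ d : ℕ, 5 ≤ d →
      Tendsto (fun n : ℕ => (fhat n d : ℝ) / n) atTop (𝓝 (((a d : ℝ) + 1) / a d))) ∧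
    ∀ d : ℕ, 177 ≤ d →
      liminf (fun n : ℕ => (fhat n d : ℝ) / n) atTop ≤
        limsup (fun n : ℕ => (fhat n d : ℝ) / n) atTop ∧
      limsup (fun n : ℕ => (fhat n d : ℝ) / n) atTop < ((a d : ℝ) + 1) / a d := by
  refine ⟨fun h => ?_, fun d hd => ⟨?_, limsup_lt d hd⟩⟩
  · have h1 := (h 177 (by norm_num)).limsup_eq
    have h2 := limsup_lt 177 le_rfl
    rw [h1] at h2
    exact lt_irrefl _ h2
  · obtain ⟨c, _, h⟩ := exists_bound d hd
    exact liminf_le_limsup ⟨c, h⟩ ⟨0, Filter.eventually_map.mpr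
      (Eventually.of_forall (fun n => div_nonneg (Nat.cast_nonneg _) (Nat.cast_nonneg _)))⟩

end Pool.Agent.Results.MP_7feb78_co.VertexQ1
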